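import Mathlib
import Pool.Agent.Helper1.SX.Complete

/-!
# Sections of fundamental groups and the Brauer-Manin set: both readings of Q1

For projective varieties over number fields the answer is yes (`ProjectiveCase`, the hand-in
SplittingGivesBrauerManin), for varieties which need not be proper it is no (`NonProperCase`, the
hand-in NonProper).
-/

namespace Pool.Agent.Results.MP_ad201b_nt.CompleteAnswer

open Pool.Agent.Helper1.SX

theorem result : ProjectiveCase ∧ NonProperCase := ⟨projectiveCase, nonProperCase⟩

end Pool.Agent.Results.MP_ad201b_nt.CompleteAnswer
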