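import Pool.Agent.Helper6.NP.Res
import Pool.Agent.Helper1.SX.Strong

set_option autoImplicit false

/-!
# MP_ad201b_nt, Q1, read as it is written, for all varieties over number fields: the answer is NO

The counterexample is the affine curve `X : w² = u⁴ + 1`, `u w ≠ 0` over `ℚ`, `X = Spec R` with
`R = Rc u w = ℚ[u, w, u⁻¹, w⁻¹]`, realised inside an algebraic closure `Ω` of its function field
`K = ff R`.  The statement says:

* `R` is integrally closed (`X` is normal, so regular, and smooth because the characteristic is 0);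
* `Gal(Ω/K) → Gal(ℚbar/ℚ)` has a continuous section (`StrongSplitting R`), hence for all rings
  `B` between `R` and `K`, for instance `B = O(U)` for a nonempty open subset `U` of the curve `X`
  (these are all affine), `ℚbar ⊆ K_B` and `Gal(K_B/K) → Gal(ℚbar/ℚ)` has a continuous splitting
  (`SplitAll R`), `K_B` the compositum of the finite étale covers of `Spec B` (for `B` normal
  `π₁(Spec B) = Gal(K_B/K)`): the splitting condition;
* `X` has adelic points;
* for every adelic point `P` there are a prime `r` and a class `α` of Azumaya algebras over `R`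
  with `α(P_v) = 0` at all places `v` except `r`, and `α(P_r) ≠ 0`.  So for all families of
  injective homomorphisms `inv_v : Br(ℚ_v) → ℚ/ℤ` the Brauer-Manin set of `X` is empty, even if
  only the classes of Azumaya algebras are used.
-/

namespace Pool.Agent.Results.MP_ad201b_nt.NonProper

open Pool.Agent.Helper6.NP Pool.Agent.Helper1.SX Pool.Agent.Helper8.BR

theorem result : ∃ (Ω : Type) (_ : Field Ω) (_ : Algebra ℚ Ω) (_ : IsAlgClosed Ω) (u w : Ω),
    Transcendental ℚ u ∧ w ^ 2 = u ^ 4 + 1 ∧ (∀ z : Ω, IsAlgebraic (ff (Rc u w)) z) ∧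
    IsIntegrallyClosed (Rc u w) ∧
    StrongSplitting (Rc u w) ∧ SplitAll (Rc u w) ∧
    Nonempty (AdPt (Rc u w)) ∧
    (∀ P : AdPt (Rc u w), ∃ (r : Nat.Primes) (α : Br (Rc u w)), OneBad P α r) ∧
    ∀ I : LocInv, BMset (Rc u w) I = ∅ := by
  obtain ⟨Ω, iF, iA, iC, u, w, hu, hw, halg, h1⟩ := exists_strong
  have h2 : StrongSplitting (Rc u w) := strong_of_sec (Rc u w) h1
  exact ⟨Ω, iF, iA, iC, u, w, hu, hw, halg, rc_integrallyClosed u w hu hw, h2,
    splitAll_of_strong (Rc u w) ⟨halg⟩ h2, adPt_nonempty u w hu hw,
    fun P => exists_oneBad u w hu hw P, fun I => bmset_empty u w hu hw I⟩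

end Pool.Agent.Results.MP_ad201b_nt.NonProper
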