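import Mathlib
import Pool.Agent.Helper79.BM.Bridge

/-!
# Sections of fundamental groups and the Brauer-Manin set

Let `k` be a number field and `X` a projective variety over `k`, given by the homogeneous
coordinates `ξ` of its generic point in an algebraic closure `Ω` of its function field. Suppose
that for every nonempty normal affine open set `U : g ≠ 0` of `X` the projection from the étale
fundamental group of `U` to the absolute Galois group of `k` has a continuous splitting. Then there
are points `P v`, `Q w` of `X` over the completions of `k` at all finite places `v` and all infinite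
places `w` such that, for every class `α` in the Brauer group of `X`, the values of `α` at these
points are the localisations of one class in the Brauer group of `k`. By the theorem of Albert,
Brauer, Hasse and Noether this means that the sum of the local invariants of `α` is zero for every
`α`: the adelic point `(P, Q)` is in the Brauer-Manin set of `X`.
-/

namespace Pool.Agent.Results.MP_ad201b_nt.SplittingGivesBrauerManin

open NumberField IsDedekindDomain Pool.Agent.BM

theorem result (k : Type) [Field k] [NumberField k] (Ω : Type) [Field Ω] [Algebra k Ω]
    [IsAlgClosed Ω] {n : ℕ} (ξ : Fin (n + 1) → Ω) (hξ : ξ ≠ 0)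
    [Algebra.IsAlgebraic (funField k ξ) Ω] (hsplit : SplittingCondition k ξ) :
    ∃ (P : ∀ v : HeightOneSpectrum (𝓞 k), Fin (n + 1) → v.adicCompletion k)
      (Q : ∀ w : InfinitePlace k, Fin (n + 1) → w.Completion),
      (∀ v, OnX k ξ (P v)) ∧ (∀ w, OnX k ξ (Q w)) ∧
      ∀ α : BrClass k ξ, ∃ (B : Type) (_ : Ring B) (_ : Algebra k B), IsAzumaya k B ∧
        (∀ v, ValueIs k α (P v) B) ∧ ∀ w, ValueIs k α (Q w) B :=
  main k Ω ξ hξ hsplit

end Pool.Agent.Results.MP_ad201b_nt.SplittingGivesBrauerManin
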